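import Pool.Agent.Helper76.LD7.Num
import Pool.Agent.Helper94.LD7.TTA
import Pool.Agent.Helper68.LD7.TTB1

/-! Project LD7, block TTB2: the times of a stage. -/

set_option autoImplicit false

namespace Pool.Agent.Helper47.LD7

open Set MeasureTheory Filter Topology
open Pool.Agent.Helper41.LD7
open Pool.Agent.Helper76.LD7 Pool.Agent.Helper94.LD7 Pool.Agent.Helper68.LD7
open Pool.Agent.Helper41.LD5 (fp pwf)

variable {F : Pm} {K : ℕ} {Θ a₀ ℓst a ℓ ℓ' x : ℝ} {j n Λ : ℕ}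

theorem a_one (hF : F.Ok) (S : F.St K a₀ ℓst) (h1 : a₀ ≤ a) : 1 ≤ a := (hF.h1.le.trans S.lo).trans h1

theorem st_le_one (S : F.St K a₀ ℓst) : ℓst ≤ 1 := by
  have h1 : (1 : ℝ) ≤ 2 ^ (K ^ 4) := one_le_pow₀ (by norm_num)
  have h2 := S.sm
  have h3 := S.pos
  nlinarith

theorem n₀_big (hF : F.Ok) (hK : F.Big K) (S : F.St K a₀ ℓst) : F.P + 1 ≤ F.n₀ K a₀ ℓst :=
  Tt_big hF S.pos (st_le_one S) (Th_ge hF hK) S.lo

/-- the first exponent of a stage -/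
theorem n₀_le (hF : F.Ok) (S : F.St K a₀ ℓst) :
    F.n₀ K a₀ ℓst ≤ F.P + F.X * (F.X + 2 ^ (2 * K) + F.C₁ * F.E K) := by
  set m := F.X + 2 ^ (2 * K) + F.C₁ * F.E K with hm
  apply Tt_le
  unfold Pm.Th
  have hA := hF.hA
  have h1 : (1:ℝ) ≤ a₀ := a_one hF S le_rfl
  have hP0 : (F.P : ℝ) ≠ 0 := by
    have := hF.hP
    positivity
  have e0 : fp F.A₀ F.P F.P a₀ = F.A₀ := by
    unfold fp
    rw [div_self hP0, sub_self, Real.rpow_zero, mul_one, mul_one]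
  have h2 := fp_step (n := F.P) (n' := F.P + F.X * m) hF.hA hF.hP (by linarith : 0 < a₀) (by omega)
  rw [e0, Nat.add_sub_cancel_left] at h2
  have h3 : F.x₁ ^ (1 / (F.P : ℝ)) ≤ a₀ ^ (1 / (F.P : ℝ)) :=
    Real.rpow_le_rpow (by linarith [hF.h1]) S.lo (by positivity)
  have h4 : 0 ≤ F.x₁ ^ (1 / (F.P : ℝ)) := Real.rpow_nonneg (by linarith [hF.h1]) _
  have e1 : (2:ℝ) ^ m ≤ (a₀ ^ (1 / (F.P : ℝ))) ^ (F.X * m) := by
    rw [pow_mul]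
    exact pow_le_pow_left₀ (by norm_num) (hF.hx1.trans (pow_le_pow_left₀ h4 h3 _)) m
  have e4 : (2:ℝ) ^ m = 2 ^ F.X * 2 ^ (2 ^ (2 * K)) * 2 ^ (F.C₁ * F.E K) := by
    rw [hm, pow_add, pow_add]
  have hlg := S.lg
  have hpos := S.pos
  have e5 : (1:ℝ) ≤ (F.A₀ * 2 ^ F.X) * (ℓst * 2 ^ (2 ^ (2 * K))) := one_le_mul_of_one_le_of_one_le hF.hA2 hlg
  calc (2:ℝ) ^ (F.C₁ * F.E K) = 1 * 2 ^ (F.C₁ * F.E K) := (one_mul _).symm
    _ ≤ ((F.A₀ * 2 ^ F.X) * (ℓst * 2 ^ (2 ^ (2 * K)))) * 2 ^ (F.C₁ * F.E K) :=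
        mul_le_mul_of_nonneg_right e5 (by positivity)
    _ = F.A₀ * ℓst * (2:ℝ) ^ m := by rw [e4]; ring
    _ ≤ F.A₀ * ℓst * (a₀ ^ (1 / (F.P : ℝ))) ^ (F.X * m) := mul_le_mul_of_nonneg_left e1 (by positivity)
    _ = (F.A₀ * (a₀ ^ (1 / (F.P : ℝ))) ^ (F.X * m)) * ℓst := by ring
    _ ≤ fp F.A₀ F.P (F.P + F.X * m) a₀ * ℓst := mul_le_mul_of_nonneg_right h2 hpos.le

/-- the exponents of a stage -/
theorem Tt_bound (hF : F.Ok) (hK : F.Big K) (S : F.St K a₀ ℓst) : F.n₀ K a₀ ℓst + 2 ^ (2 * K) + F.Q + F.d + 2 ≤ 2 ^ (3 * K) := by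
  have hle := n₀_le hF S
  obtain ⟨h1, h2, h3⟩ := num_Z hK
  obtain ⟨hX, hd, -, -, -, -, hC₁, -, -, -, -, -, -, -, hPX, hQX⟩ := num_le hF
  have hE := (num_E hF K).2.1
  have hpow := (num_pow hF hK).1
  have hK12 := num_K hK
  have hXK : F.X + 1 ≤ K := hX.trans h3
  have hdK : F.d + 4 ≤ K := hd.trans h3
  have hC₁K : F.C₁ ≤ K := hC₁.trans h3
  have hEK : F.E K ≤ K * K := hE.trans (Nat.mul_le_mul_right K h3)
  set m := F.X + 2 ^ (2 * K) + F.C₁ * F.E K with hm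
  have e1 : F.X * m ≤ K * (K + 2 ^ (2 * K) + K * (K * K)) := by
    rw [hm]
    refine Nat.mul_le_mul (by omega) ?_
    have := Nat.mul_le_mul hC₁K hEK
    omega
  have hK4 : K ^ 4 ≤ 2 ^ K := (Nat.pow_le_pow_right (by omega) (by norm_num)).trans hpow
  have hKK : K ≤ 2 ^ K := Nat.lt_two_pow_self.le
  have h2K : 2 ^ (2 * K) = 2 ^ K * 2 ^ K := by rw [two_mul, pow_add]
  have h3K : 2 ^ (3 * K) = 2 ^ K * (2 ^ K * 2 ^ K) := by
    rw [show 3 * K = K + (K + K) by ring, pow_add, pow_add]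
  set P := 2 ^ K with hP
  have hKP : K + 5 ≤ P := by
    have : K * 2 ≤ K ^ 4 := by nlinarith [Nat.pow_le_pow_left hK12 3, Nat.pow_le_pow_left hK12 2]
    omega
  calc F.n₀ K a₀ ℓst + 2 ^ (2 * K) + F.Q + F.d + 2
      ≤ (K * (K + 2 ^ (2 * K) + K * (K * K)) + K) + 2 ^ (2 * K) + K + K + 2 := by omega
    _ = (K + 1) * (P * P) + K * K + K ^ 4 + 3 * K + 2 := by rw [h2K]; ring
    _ ≤ (K + 5) * (P * P) := by
        have a1 : K * K ≤ P * P := Nat.mul_le_mul hKK hKK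
        have a2 : K ^ 4 ≤ P * P := hK4.trans (Nat.le_mul_of_pos_left _ (by positivity))
        have a3 : 3 * K + 2 ≤ P * P := by nlinarith
        nlinarith
    _ ≤ P * (P * P) := Nat.mul_le_mul_right _ hKP
    _ = 2 ^ (3 * K) := h3K.symm

/-- steps of one block -/
theorem T_blk (hF : F.Ok) (hK : F.Big K) (S : F.St K a₀ ℓst) (hℓ : 0 < ℓ) (hℓst : ℓ ≤ ℓst) :
    F.T K a₀ ℓst ℓ + 3 * (F.R * F.E K) ≤ F.T K a₀ ℓst (ℓ / 2 ^ (K ^ 3)) ∧ F.T K a₀ ℓst (ℓ / 2 ^ (K ^ 3)) ≤ F.T K a₀ ℓst ℓ + F.X * K ^ 3 := by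
  have hΘ := Th_ge hF hK
  have h1 : F.n₀ K a₀ ℓst ≤ Tt F.A₀ F.P (F.Th K) a₀ ℓ := Tt_mono hF S.lo hℓ hℓst
  have h2 := Tt_block_le (Θ := F.Th K) hF S.lo hℓ (K ^ 3)
  have ha₀ : a₀ ≤ F.x₂ := by linarith [S.hi, S.pos]
  have h3 := Tt_block_ge (n := 3 * (F.R * F.E K)) (Λ := K ^ 3) hF S.lo ha₀ hℓ (hℓst.trans (st_le_one S)) hΘ
    (by have := (num_R hF hK).2; omega)
  unfold Pm.T
  omega

/-- fast from the time `T` on -/
theorem T_fast (hF : F.Ok) (hK : F.Big K) (S : F.St K a₀ ℓst) (hℓ : 0 < ℓ) (h1 : a₀ ≤ a) (h2 : a + ℓ ≤ a₀ + ℓst) (hj : F.T K a₀ ℓst ℓ ≤ j) :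
    F.Th K ≤ F.V K a₀ ℓst j a * ℓ := by
  have hn := n₀_big hF hK S
  have h3 : F.Th K ≤ fp F.A₀ F.P (F.n₀ K a₀ ℓst + j) a₀ * ℓ := by
    apply Tt_ge hF S.lo hℓ
    unfold Pm.T at hj
    omega
  refine h3.trans (mul_le_mul_of_nonneg_right ?_ hℓ.le)
  exact fp_mono hF.hA hF.hP (by omega) (by linarith [a_one hF S le_rfl]) h1

theorem V_mono (hF : F.Ok) (hK : F.Big K) (S : F.St K a₀ ℓst) (h1 : a₀ ≤ a) (hj : j ≤ n) : F.V K a₀ ℓst j a ≤ F.V K a₀ ℓst n a :=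
  fp_le hF.hA hF.hP (a_one hF S h1) (by omega)

/-- the derivatives on the stage: the point, one step -/
theorem V_near (hF : F.Ok) (hK : F.Big K) (S : F.St K a₀ ℓst) (h1 : a₀ ≤ a) (hax : a ≤ x) (hx : x ≤ a₀ + ℓst) (hj : j ≤ 2 ^ (2 * K) + F.Q + F.d) :
    F.V K a₀ ℓst j a ≤ F.V K a₀ ℓst j x ∧ F.V K a₀ ℓst j x ≤ 2 * F.V K a₀ ℓst j a := by
  have ha := a_one hF S h1
  have hn := n₀_big hF hK S
  refine ⟨fp_mono hF.hA hF.hP (by omega) (by linarith) hax, ?_⟩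
  have h2 := Tt_bound hF hK S
  refine fp_near (T := 2 ^ (3 * K)) (δ := ℓst) hF.hA hF.hP ha hax (by linarith) (by omega) ?_
  have h3 := S.sm
  have h4 : (2:ℝ) * 2 ^ (3 * K) ≤ 2 ^ (K ^ 4) := by
    rw [← pow_succ']
    apply pow_le_pow_right₀ (by norm_num)
    have := num_K hK
    nlinarith [Nat.pow_le_pow_left this 3, Nat.pow_le_pow_left this 2]
  push_cast
  have h5 := S.pos
  nlinarith

theorem V_steps (hF : F.Ok) (hK : F.Big K) (S : F.St K a₀ ℓst) (h1 : a₀ ≤ a) (ha : a ≤ a₀ + ℓst) {i : ℕ} (hi : i ≤ F.d + F.Q + 1) :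
    F.V K a₀ ℓst (j + i) a ≤ 2 ^ F.E K / 8 * F.V K a₀ ℓst j a := by
  have ha1 := a_one hF S h1
  have hn := n₀_big hF hK S
  have h3 := fp_step_le (n := F.n₀ K a₀ ℓst + j) hF.hA hF.hP (by omega) ha1 i
  have h4 : F.V K a₀ ℓst (j + i) a = fp F.A₀ F.P (F.n₀ K a₀ ℓst + j + i) a := by
    unfold Pm.V
    rw [add_assoc]
  rw [h4]
  refine h3.trans (mul_le_mul_of_nonneg_right ?_ (fp_nonneg hF.hA (by linarith)))
  rw [le_div_iff₀ (by norm_num)]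
  have h5 : 2 * a ≤ 2 ^ (F.X + 1) := by
    rw [pow_succ']
    have := ha.trans (S.hi.trans hF.hx2)
    linarith
  calc (2 * a) ^ i * 8 ≤ (2 ^ (F.X + 1)) ^ i * 8 := by
        have := pow_le_pow_left₀ (by linarith : 0 ≤ 2 * a) h5 i
        linarith
    _ ≤ (2 ^ (F.X + 1)) ^ (F.d + F.Q + 1) * 8 := by
        have : ((2:ℝ) ^ (F.X + 1)) ^ i ≤ (2 ^ (F.X + 1)) ^ (F.d + F.Q + 1) :=
          pow_le_pow_right₀ (one_le_pow₀ (by norm_num)) hi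
        linarith
    _ = 2 ^ ((F.X + 1) * (F.d + F.Q + 1) + 3) := by
        rw [← pow_mul, pow_add]
        norm_num
    _ ≤ 2 ^ F.E K := by
        apply pow_le_pow_right₀ (by norm_num)
        obtain ⟨-, -, -, -, -, -, -, -, -, -, hXd, -, -, -, -, hQX⟩ := num_le hF
        have h6 := hXd.trans (num_Z hK).2.2
        have hK1 := num_K hK
        have h7 := (num_E hF K).1
        have h8 : (F.X + 1) * (F.d + F.Q + 1) ≤ (F.X + 1) * (F.X + F.d + 4) := Nat.mul_le_mul_left _ (by omega)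
        omega

end Pool.Agent.Helper47.LD7
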